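import Pool.Agent.H441.DF.Hyp

/-!
# Lang's question on hyperbolicity and rational points is a question on systems of diagonal forms

MP_f82ddf_nt, Q1. Let `m ≥ 2` be fixed (for example `m = 2`). Let `V` be any projective variety in
`P^n` (any dimension, any singularities) over a field `K` of characteristic zero, given by forms of
degree at most `d`. Let `v : P^n → P^M` be the Veronese embedding of degree `e = max d 1`, let `a_j`,
`j ≤ N`, be all the vectors in `{0, 1, …, B}^(M+1)`, `B = m (1 + (m² + 1) + 4 m)`, and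

`φ : P^n → P^N, φ(x) = (⟨a_0, v(x)⟩, …, ⟨a_N, v(x)⟩)`.

**Theorem 1.** There is a system of diagonal forms `∑_j c_ij y_j ^ m` over `K`, with the zeros `X` in
`P^N` (the preimage of a linear subspace under `y ↦ (y_0 ^ m, …, y_N ^ m)`), such that `V = φ⁻¹(X)`
and for all embeddings `σ` of `K` in `ℂ` all nonconstant entire curves in `X_σ`, and all holomorphic
maps from the punctured disc to `X_σ` which do not extend to the disc, lie in one of the finitely many
copies `{(ζ_0 φ_0(x), …, ζ_N φ_N(x)) : x ∈ V_σ}`, `ζ_j ^ m = 1`, of `V_σ`. In particular `X_σ` is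
hyperbolic if and only if `V_σ` is hyperbolic.

Consequently, for every number field `K`, every embedding `σ` and every symmetric set `D` which
contains `1` and generates the vector space `K` over `ℚ` (for example `D = {1, -1}` for `K = ℚ`):

**Theorem 2.** The implication `X_σ` hyperbolic `⟹` `X(L)` finite for all finite extensions `L` of
`K` holds for all projective varieties over `K` if and only if it holds for all smooth hypersurfaces
(so if and only if it holds for all projective manifolds), and if and only if it holds for all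
systems `∑_j c_ij y_j ^ m = 0`, `i ≤ k`, of diagonal equations with coefficients in `D ∪ {0}`.

**Theorem 3.** The same holds for the equivalence of Q1 in the form with exceptional sets: all
nonconstant entire curves in `X_σ` lie in `Z_σ` if and only if `(X ∖ Z)(L)` is finite for all finite
extensions `L` of `K`. (`Z = ∅` is the equivalence of Q1.)

So over `ℚ` Lang's question is a question on systems of equations `∑_j c_ij y_j ^ 2 = 0` with
coefficients `c_ij` in `{-1, 0, 1}`.

Proof. A point of `X` over the field of meromorphic functions near infinity defines a linear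
functional `L`, `L(⟨a_j, X⟩ ^ m) = y_j ^ m`, on the forms of degree `m`. By a theorem of Büchi type
for this field (`pow_Minf` of the library) the restrictions of `L` to pencils of linear forms are
powers of linear polynomials or proportional to polynomials over the field of the functions that are
meromorphic at infinity. It follows that `L` is the evaluation at a point or that all the ratios of
its values are meromorphic at infinity (`Pool/Agent/H441/DF/Main.lean`).
-/

set_option autoImplicit false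

namespace Pool.Agent.Results.MP_f82ddf_nt.DiagonalFormsSuffice

open MvPolynomial Metric
open Pool.Agent.N254.SQ (ProjectiveBLV SmoothOver Monomials veronese)
open Pool.Agent.Results.MP_f82ddf_nt.SmoothHypersurfacesSuffice (Hyperbolic FinitePoints)
open Pool.Agent.W603.BP (Extends)

/-- the diagonal form `∑ j, c j * y j ^ m` -/
noncomputable def diagonal {K : Type} [Field K] {N : ℕ} (m : ℕ) (c : Fin (N + 1) → K) :
    MvPolynomial (Fin (N + 1)) K := ∑ j, C (c j) * X j ^ m

/-- the vector of the values `⟨a j, v(x)⟩` of linear forms at the image of `x` under the Veronese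
map `v` -/
def φ {n M N : ℕ} (v : Fin (M + 1) → Fin (n + 1) → ℕ) (a : Fin (N + 1) → Fin (M + 1) → ℕ)
    {Ω : Type} [Field Ω] (x : Fin (n + 1) → Ω) : Fin (N + 1) → Ω :=
  fun j => ∑ l, (a j l : Ω) * veronese v x l

/-- the numbers `k`, `N` and the matrix `c` define the variety `∑_j c_ij y_j ^ m = 0`, `i < k`, in
`P^N`, with the equations `sys m c` -/
noncomputable def sys {K : Type} [Field K] {k N : ℕ} (m : ℕ) (c : Fin k → Fin (N + 1) → K) :
    Fin k → MvPolynomial (Fin (N + 1)) K := fun i => diagonal m (c i)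

theorem result (m : ℕ) (hm : 2 ≤ m) :
    -- Theorem 1
    (∀ n d : ℕ, ∃ (M N : ℕ) (v : Fin (M + 1) → Fin (n + 1) → ℕ)
      (a : Fin (N + 1) → Fin (M + 1) → ℕ), Monomials n M (max d 1) v ∧ Function.Injective a ∧
      Set.range a = {b | ∀ l, b l ≤ m * (1 + (m ^ 2 + 1) + 4 * m)} ∧
      -- `φ` is injective
      (∀ (Ω : Type) [Field Ω] (x : Fin (n + 1) → Ω), x ≠ 0 → φ v a x ≠ 0 ∧
        ∀ (x' : Fin (n + 1) → Ω) (s : Ω), φ v a x = s • φ v a x' → ∃ t : Ω, x = t • x') ∧
      ∀ (K : Type) [Field K] [CharZero K] (S : Set (MvPolynomial (Fin (n + 1)) K)),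
        (∀ p ∈ S, ∃ d' ≤ d, p.IsHomogeneous d') →
        ∃ (k : ℕ) (c : Fin k → Fin (N + 1) → K),
          -- `V = φ⁻¹(X)`
          (∀ (Ω : Type) [Field Ω] (τ : K →+* Ω) (x : Fin (n + 1) → Ω), x ≠ 0 →
            ((∀ p ∈ S, eval₂ τ x p = 0) ↔ ∀ i, eval₂ τ (φ v a x) (sys m c i) = 0)) ∧
          ∀ σ : K →+* ℂ,
            -- entire curves
            (∀ f : ℂ → Fin (N + 1) → ℂ, Differentiable ℂ f → (∀ z, f z ≠ 0) →
              (∀ z i, eval₂ σ (f z) (sys m c i) = 0) →
              (∀ z w, ∃ b : ℂ, f w = b • f z) ∨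
                ∃ (ζ : Fin (N + 1) → ℂ) (x : ℂ → Fin (n + 1) → ℂ), (∀ j, ζ j ^ m = 1) ∧
                  Differentiable ℂ x ∧ (∀ z, x z ≠ 0) ∧ (∀ z, ∀ p ∈ S, eval₂ σ (x z) p = 0) ∧
                  ∀ z j, f z j = ζ j * φ v a (x z) j) ∧
            -- holomorphic maps from the punctured disc
            (∀ f : ℂ → Fin (N + 1) → ℂ, DifferentiableOn ℂ f (ball 0 1 \ {0}) →
              (∀ z ∈ ball (0 : ℂ) 1 \ {0}, f z ≠ 0) →
              (∀ z ∈ ball (0 : ℂ) 1 \ {0}, ∀ i, eval₂ σ (f z) (sys m c i) = 0) →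
              Extends f ∨ ∃ ζ : Fin (N + 1) → ℂ, (∀ j, ζ j ^ m = 1) ∧
                ∀ z ∈ ball (0 : ℂ) 1 \ {0}, ∃ x : Fin (n + 1) → ℂ, x ≠ 0 ∧
                  (∀ p ∈ S, eval₂ σ x p = 0) ∧ ∀ j, f z j = ζ j * φ v a x j) ∧
            -- hyperbolicity
            (Hyperbolic σ (fun p : S => (p : MvPolynomial (Fin (n + 1)) K)) ↔
              Hyperbolic σ (sys m c))) ∧
    -- Theorems 2 and 3
    (∀ (K : Type) [Field K] [NumberField K] (σ : K →+* ℂ) (D : Set K), 1 ∈ D →
      (∀ x ∈ D, -x ∈ D) → Submodule.span ℚ D = ⊤ →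
      [∀ (n : ℕ) (ι : Type) [Finite ι] (F : ι → MvPolynomial (Fin (n + 1)) K),
          (∀ i, ∃ e, (F i).IsHomogeneous e) → Hyperbolic σ F → FinitePoints F,
        ∀ (N : ℕ) (A : MvPolynomial (Fin (N + 1)) K), (∃ e, A.IsHomogeneous e) → SmoothOver A →
          Hyperbolic σ (fun _ : Unit => A) → FinitePoints (fun _ : Unit => A),
        ∀ (N k : ℕ) (c : Fin k → Fin (N + 1) → K), (∀ i j, c i j = 0 ∨ c i j ∈ D) →
          Hyperbolic σ (sys m c) → FinitePoints (sys m c)].TFAE ∧
      [∀ (n : ℕ) (ι κ : Type) [Finite ι] (F : ι → MvPolynomial (Fin (n + 1)) K)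
          (G : κ → MvPolynomial (Fin (n + 1)) K), (∀ i, ∃ e, (F i).IsHomogeneous e) →
          (∀ k, ∃ e, (G k).IsHomogeneous e) → ProjectiveBLV σ F G,
        ∀ (N : ℕ) (A : MvPolynomial (Fin (N + 1)) K), (∃ e, A.IsHomogeneous e) → SmoothOver A →
          ∀ (κ : Type) (G : κ → MvPolynomial (Fin (N + 1)) K), (∀ k, ∃ e, (G k).IsHomogeneous e) →
            ProjectiveBLV σ (fun _ : Unit => A) G,
        ∀ (N k : ℕ) (c : Fin k → Fin (N + 1) → K), (∀ i j, c i j = 0 ∨ c i j ∈ D) →
          ∀ (κ : Type) (G : κ → MvPolynomial (Fin (N + 1)) K), (∀ k, ∃ e, (G k).IsHomogeneous e) →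
            ProjectiveBLV σ (sys m c) G].TFAE) := by
  open Pool.Agent.H441.DF in
  have hmain : ∀ (K : Type) [Field K] [NumberField K] (σ : K →+* ℂ) (D : Set K), 1 ∈ D →
      (∀ x ∈ D, -x ∈ D) → Submodule.span ℚ D = ⊤ →
      [∀ (n : ℕ) (ι : Type) [Finite ι] (F : ι → MvPolynomial (Fin (n + 1)) K),
          (∀ i, ∃ e, (F i).IsHomogeneous e) → Hyperbolic σ F → FinitePoints F,
        ∀ (N : ℕ) (A : MvPolynomial (Fin (N + 1)) K), (∃ e, A.IsHomogeneous e) → SmoothOver A →
          Hyperbolic σ (fun _ : Unit => A) → FinitePoints (fun _ : Unit => A),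
        ∀ (N k : ℕ) (c : Fin k → Fin (N + 1) → K), (∀ i j, c i j = 0 ∨ c i j ∈ D) →
          Hyperbolic σ (sys m c) → FinitePoints (sys m c)].TFAE ∧
      [∀ (n : ℕ) (ι κ : Type) [Finite ι] (F : ι → MvPolynomial (Fin (n + 1)) K)
          (G : κ → MvPolynomial (Fin (n + 1)) K), (∀ i, ∃ e, (F i).IsHomogeneous e) →
          (∀ k, ∃ e, (G k).IsHomogeneous e) → ProjectiveBLV σ F G,
        ∀ (N : ℕ) (A : MvPolynomial (Fin (N + 1)) K), (∃ e, A.IsHomogeneous e) → SmoothOver A →
          ∀ (κ : Type) (G : κ → MvPolynomial (Fin (N + 1)) K), (∀ k, ∃ e, (G k).IsHomogeneous e) →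
            ProjectiveBLV σ (fun _ : Unit => A) G,
        ∀ (N k : ℕ) (c : Fin k → Fin (N + 1) → K), (∀ i j, c i j = 0 ∨ c i j ∈ D) →
          ∀ (κ : Type) (G : κ → MvPolynomial (Fin (N + 1)) K), (∀ k, ∃ e, (G k).IsHomogeneous e) →
            ProjectiveBLV σ (sys m c) G].TFAE := by
    intro K _ _ σ D h1 hneg hD
    obtain ⟨D₁, -, hlib⟩ := Pool.Agent.Results.MP_f82ddf_nt.SmoothHypersurfacesSuffice.result
    obtain ⟨hlib1, hlib2⟩ := hlib K σ Set.univ Set.infinite_univ
    constructor
    · tfae_have 1 → 2 := fun h N A hA _ hyp => h N Unit (fun _ => A) (fun _ => hA) hyp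
      tfae_have 2 → 1 := fun h => hlib1.2 fun N D Q _ _ hQ hsm hyp =>
        h N _ ⟨2 + D, Pool.Agent.N254.SQ.power_form hQ⟩ hsm hyp
      tfae_have 1 → 3 := fun h N k c _ hyp =>
        h N (Fin k) (sys m c) (fun i => ⟨m, diag_hom (c i)⟩) hyp
      tfae_have 3 → 1 := by
        intro h n ι _ F hF hyp
        obtain ⟨e, he, hdF⟩ := deg_bound F hF
        obtain ⟨M, v, hv⟩ := exists_mon n e
        obtain ⟨ι₁, _, q₁, hC₁⟩ := exists_cut hv he F hdF
        obtain ⟨N, a, k, c, ha, hcD, hc⟩ := rel_small D h1 hneg hD (m := m) q₁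
        exact finite_of hm ha hC₁ hv he hF hc
          (h N k c hcD ((hyp_iff hm ha hC₁ hv he hF hc σ).1 hyp))
      tfae_finish
    · tfae_have 1 → 2 := fun h N A hA _ κ G hG => h N Unit κ (fun _ => A) G (fun _ => hA) hG
      tfae_have 2 → 1 := fun h => hlib2.2 fun N D Q _ _ hQ hsm κ G hG =>
        h N _ ⟨2 + D, Pool.Agent.N254.SQ.power_form hQ⟩ hsm κ G hG
      tfae_have 1 → 3 := fun h N k c _ κ G hG =>
        h N (Fin k) κ (sys m c) G (fun i => ⟨m, diag_hom (c i)⟩) hG
      tfae_have 3 → 1 := fun h => blv_diag σ D h1 hneg hD hm h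
      tfae_finish
  refine ⟨?_, hmain⟩
  · intro n d
    obtain ⟨M, v, hv⟩ := Pool.Agent.H441.DF.exists_mon n (max d 1)
    obtain ⟨N, a, hainj, ha'⟩ := Pool.Agent.H441.DF.exists_full M m
    have ha := Pool.Agent.H441.DF.full_of ha'
    have he : 1 ≤ max d 1 := le_max_right _ _
    refine ⟨M, N, v, a, ⟨hv.deg, hv.inj, hv.surj⟩, hainj, ha', ?_, ?_⟩
    · intro Ω _ x hx
      refine ⟨Pool.Agent.H441.DF.lins_ne hm ha (Pool.Agent.N254.SQ.ver_ne_zero hv he hx), ?_⟩
      intro x' s h
      exact Pool.Agent.N254.SQ.ver_prop hv he hx (Pool.Agent.H441.DF.lins_prop hm ha h)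
    · intro K _ _ S hS
      obtain ⟨T, hT, hTS⟩ := Pool.Agent.N254.SQ.reduce S
      let F : T → MvPolynomial (Fin (n + 1)) K := fun p => p
      have hdF : ∀ i, ∃ d' ≤ max d 1, (F i).IsHomogeneous d' := fun i => by
        obtain ⟨d', hd', h⟩ := hS _ (hT i.2)
        exact ⟨d', hd'.trans (le_max_left _ _), h⟩
      have hF : ∀ i, ∃ d', (F i).IsHomogeneous d' := fun i => by
        obtain ⟨d', -, h⟩ := hdF i
        exact ⟨d', h⟩
      obtain ⟨ι', _, q, hC⟩ := Pool.Agent.H441.DF.exists_cut hv he F hdF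
      obtain ⟨k, c, hc⟩ := Pool.Agent.H441.DF.rel_fg (m := m) (a := a) q
      have hTS' : ∀ (Ω : Type) [Field Ω] (τ : K →+* Ω) (x : Fin (n + 1) → Ω),
          (∀ i, eval₂ τ x (F i) = 0) ↔ ∀ p ∈ S, eval₂ τ x p = 0 := by
        intro Ω _ τ x
        constructor
        · intro h p hp
          have := hTS Ω τ x (fun p hp => by
            rw [eval_map]
            exact h ⟨p, hp⟩) p hp
          rwa [eval_map] at this
        · intro h i
          exact h _ (hT i.2)
      refine ⟨k, c, ?_, fun σ => ⟨?_, ?_, ?_⟩⟩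
      · intro Ω _ τ x hx
        let _ : Algebra K Ω := τ.toAlgebra
        rw [← hTS' Ω τ x]
        exact Pool.Agent.H441.DF.pts_iff hm ha hC hv he hF hc hx
      · intro f hf hf0 hX
        by_cases hcon : ∀ z w, ∃ b : ℂ, f w = b • f z
        · exact Or.inl hcon
        · right
          push Not at hcon
          obtain ⟨ζ, x, hζ, hxd, hx0, hxF, hfx⟩ :=
            Pool.Agent.H441.DF.entire hm ha hC hv he hF hc σ hf hf0 hX hcon
          exact ⟨ζ, x, hζ, hxd, hx0, fun z => (hTS' ℂ σ (x z)).1 (hxF z), hfx⟩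
      · intro f hf hf0 hX
        by_cases hE : Extends f
        · exact Or.inl hE
        · right
          obtain ⟨ζ, hζ, h⟩ := Pool.Agent.H441.DF.punct hm ha hC hv he hF hc σ hf hf0 hX hE
          refine ⟨ζ, hζ, fun z hz => ?_⟩
          obtain ⟨x, hx, hxF, hfx⟩ := h z hz
          exact ⟨x, hx, (hTS' ℂ σ x).1 hxF, hfx⟩
      · have h1 := Pool.Agent.H441.DF.hyp_iff hm ha hC hv he hF hc σ
        have h2 : Hyperbolic σ (fun p : S => (p : MvPolynomial (Fin (n + 1)) K)) ↔
            Hyperbolic σ F := by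
          constructor
          · intro h f hf hf0 hfF
            exact h f hf hf0 fun z i => (hTS' ℂ σ (f z)).1 (hfF z) i i.2
          · intro h f hf hf0 hfF
            exact h f hf hf0 fun z i => hfF z ⟨i, hT i.2⟩
        exact h2.trans h1

end Pool.Agent.Results.MP_f82ddf_nt.DiagonalFormsSuffice
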