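import Pool.Agent.H441.FT.Blv

/-!
# Lang's question on hyperbolicity and rational points is a question on rational parallelograms

MP_f82ddf_nt, Q1. The diagonals `y_p, y_q` and the sides `y_s, y_t` of a parallelogram satisfy the
parallelogram law `y_p ^ 2 + y_q ^ 2 = 2 y_s ^ 2 + 2 y_t ^ 2`. We consider the projective varieties `Y`
over `ℚ` which are intersections of quadrics of this form,

`Y : y_p ^ 2 + y_q ^ 2 = 2 y_s ^ 2 + 2 y_t ^ 2`, `(p, q, s, t) ∈ R`,

for a finite list `R` of quadruples of indices: the varieties of systems of parallelograms some of whose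
sides and diagonals are equal. (There is no other parameter: they are given by the combinatorial data
`R` alone.)

**Theorem 1.** Let `X` be any projective variety over `ℚ` in `P^n` (any dimension, any singularities) and
`Z` a closed subset. There are a list `R`, a closed embedding `φ : P^n → P^N` by forms of the same degree
with integral coefficients (among them all monomials of this degree), and a set `J` of indices such
that `X = φ⁻¹(Y)` and `X ∩ Z = X ∩ φ⁻¹({y_j = 0, j ∈ J})`, and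

* every nonconstant entire curve in `Y` lies in one of the finitely many copies
`{(± φ_0(x) : … : ± φ_N(x)) : x ∈ X}` of `X` (and comes from an entire curve in `X`),
* every closed subvariety of `Y` over `ℂ` of positive dimension is of general type or lies in one of
these copies of `X`.

**Theorem 2.** The following statements are equivalent: for all number fields `K` and all projective
varieties `X` over `K`, if `X_σ` is hyperbolic for all embeddings `σ` of `K` in `ℂ`, then `X(L)` is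
finite for all finite extensions `L` of `K`; and: for all `R`, if `Y` is hyperbolic, then `Y(L)` is finite
for all number fields `L`.

**Theorem 3.** The same for the equivalence in its form with exceptional sets: for all number fields `K`,
all projective varieties `X` over `K` and all closed subsets `Z`, all nonconstant entire curves in all
`X_σ` lie in `Z_σ` if and only if `(X ∖ Z)(L)` is finite for all `L`; this holds if and only if it holds
for all `Y` and all coordinate subspaces `Z = {y_j = 0, j ∈ J}`.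

Proof. See `Pool/Agent/H441/FT`. The coordinates of `P^N` are indexed by all integral vectors `u` in a
large box, `φ_u(x) = ⟨u, v(x)⟩` with the Veronese embedding `v`. The parallelogram laws for all `u, v`,
`u + v`, `u - v` in the box express that the squares `y_u ^ 2` are the values of a quadratic form; the
equation `g(p) + g(q) = g(s) + g(t)` is equivalent to `g(p + q) + g(p - q) = 2 g(s) + 2 g(t)`, so also
the equations of the Veronese variety are of this form, and `y_u = 0` is `2 y_u ^ 2 = 4 y_0 ^ 2`. By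
theorems of Büchi type for meromorphic functions near infinity (library) and for function fields not of
general type the quadratic form is a square, so the point is in a copy of `X`, or all the ratios of its
coordinates are in a smaller field. Varieties over number fields are replaced by the unions of their
conjugates over `ℚ`.
-/

set_option autoImplicit false

namespace Pool.Agent.Results.MP_f82ddf_nt.ParallelogramsSuffice

open MvPolynomial
open Pool.Agent.W602.GT (SubVar GeneralType)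
open scoped LinearAlgebra.Projectivization

section

variable {K : Type} [Field K] {ι γ : Type} {n : ℕ}

/-- `V(F)_σ` is hyperbolic: there are no nonconstant entire curves -/
def Hyperbolic (σ : K →+* ℂ) (F : ι → MvPolynomial (Fin (n + 1)) K) : Prop :=
  ∀ f : ℂ → Fin (n + 1) → ℂ, Differentiable ℂ f → (∀ z, f z ≠ 0) →
    (∀ z i, eval₂ σ (f z) (F i) = 0) → ∀ z w, ∃ c : ℂ, f w = c • f z

/-- `V(F)(L)` is finite for all finite extensions `L` of `K` -/
def FinitePoints (F : ι → MvPolynomial (Fin (n + 1)) K) : Prop :=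
  ∀ (L : Type) [Field L] [NumberField L] [Algebra K L],
    {P : ℙ L (Fin (n + 1) → L) | ∀ i, eval₂ (algebraMap K L) P.rep (F i) = 0}.Finite

/-- all nonconstant entire curves in `V(F)_σ` lie in `V(G)` -/
def CurvesIn (σ : K →+* ℂ) (F : ι → MvPolynomial (Fin (n + 1)) K)
    (G : γ → MvPolynomial (Fin (n + 1)) K) : Prop :=
  ∀ f : ℂ → Fin (n + 1) → ℂ, Differentiable ℂ f → (∀ z, f z ≠ 0) →
    (∀ z i, eval₂ σ (f z) (F i) = 0) → (∃ z w, ∀ c : ℂ, f w ≠ c • f z) →
    ∀ z l, eval₂ σ (f z) (G l) = 0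

/-- `(V(F) ∖ V(G))(L)` is finite for all finite extensions `L` of `K` -/
def PointsIn (F : ι → MvPolynomial (Fin (n + 1)) K) (G : γ → MvPolynomial (Fin (n + 1)) K) :
    Prop :=
  ∀ (L : Type) [Field L] [NumberField L] [Algebra K L],
    {P : ℙ L (Fin (n + 1) → L) | (∀ i, eval₂ (algebraMap K L) P.rep (F i) = 0) ∧
      ¬ ∀ l, eval₂ (algebraMap K L) P.rep (G l) = 0}.Finite

end

/-- the equations `y_p ^ 2 + y_q ^ 2 = 2 y_s ^ 2 + 2 y_t ^ 2`, `(p, q, s, t) = R i`, `i < k` -/
noncomputable def parallelograms {N k : ℕ} (R : Fin k → Fin 4 → Fin (N + 1)) :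
    Fin k → MvPolynomial (Fin (N + 1)) ℚ :=
  fun i => X (R i 0) ^ 2 + X (R i 1) ^ 2 - 2 * (X (R i 2) ^ 2 + X (R i 3) ^ 2)

/-- the equations `y_j = 0`, `j ∈ J` -/
noncomputable def coords {N : ℕ} (J : Set (Fin (N + 1))) : J → MvPolynomial (Fin (N + 1)) ℚ :=
  fun j => X (j : Fin (N + 1))

section proof

variable {K : Type} [Field K] {ι : Type} {n : ℕ}

theorem hyp_iff {σ : K →+* ℂ} {F : ι → MvPolynomial (Fin (n + 1)) K} :
    Hyperbolic σ F ↔ Pool.Agent.H441.FT.CurvesIn σ F
      (fun _ : Unit => (1 : MvPolynomial (Fin (n + 1)) K)) := by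
  constructor
  · rintro h f hf hf0 hfF ⟨z, w, hnc⟩
    obtain ⟨c, hc⟩ := h f hf hf0 hfF z w
    exact absurd hc (hnc c)
  · intro h f hf hf0 hfF z w
    by_contra hcon
    push Not at hcon
    have := h f hf hf0 hfF ⟨z, w, hcon⟩ z ()
    simp at this

theorem fin_iff {F : ι → MvPolynomial (Fin (n + 1)) K} :
    FinitePoints F ↔ Pool.Agent.H441.FT.PointsIn F
      (fun _ : Unit => (1 : MvPolynomial (Fin (n + 1)) K)) := by
  constructor
  · intro h L _ _ _
    exact (h L).subset fun P hP => hP.1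
  · intro h L _ _ _
    refine (h L).subset fun P hP => ⟨hP, fun hcon => ?_⟩
    have := hcon ()
    simp at this

theorem part_one {n : ℕ} {ι γ : Type} [Finite ι] [Finite γ]
    (F : ι → MvPolynomial (Fin (n + 1)) ℚ) (G : γ → MvPolynomial (Fin (n + 1)) ℚ)
    (hF : ∀ i, ∃ e, (F i).IsHomogeneous e) (hG : ∀ i, ∃ e, (G i).IsHomogeneous e) :
    ∃ (N k : ℕ) (R : Fin k → Fin 4 → Fin (N + 1)) (J : Set (Fin (N + 1))) (e : ℕ)
      (φ : Fin (N + 1) → MvPolynomial (Fin (n + 1)) ℚ), 1 ≤ e ∧ (∀ j, (φ j).IsHomogeneous e) ∧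
      (∀ j s, ∃ z : ℤ, coeff s (φ j) = (z : ℚ)) ∧
      (∀ α : Fin (n + 1) → ℕ, ∑ i, α i = e → ∃ j, φ j = ∏ i, X i ^ α i) ∧
      (∀ (Ω : Type) [Field Ω] (τ : ℚ →+* Ω) (x : Fin (n + 1) → Ω), x ≠ 0 →
        ((∀ i, eval₂ τ x (F i) = 0) ↔
          ∀ i, eval₂ τ (fun j => eval₂ τ x (φ j)) (parallelograms R i) = 0) ∧
        ((∀ l, eval₂ τ x (G l) = 0) ↔ ∀ j ∈ J, eval₂ τ x (φ j) = 0)) ∧
      (∀ f : ℂ → Fin (N + 1) → ℂ, Differentiable ℂ f → (∀ z, f z ≠ 0) →
        (∀ z i, aeval (f z) (parallelograms R i) = 0) → (∃ z w, ∀ c : ℂ, f w ≠ c • f z) →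
        ∃ (ε : Fin (N + 1) → ℂ) (x : ℂ → Fin (n + 1) → ℂ), (∀ j, ε j = 1 ∨ ε j = -1) ∧
          Differentiable ℂ x ∧ (∀ z, x z ≠ 0) ∧ (∀ z i, aeval (x z) (F i) = 0) ∧
          ∀ z j, f z j = ε j * aeval (x z) (φ j)) ∧
      ∀ (L : Type) [Field L] [Algebra ℂ L] (w : ℕ) (y : Fin (N + 1) → L), 1 ≤ w →
        SubVar (fun i => map (algebraMap ℚ ℂ) (parallelograms R i)) L w y →
        GeneralType ℂ L w ∨ ∃ (ε : Fin (N + 1) → L) (x : Fin (n + 1) → L) (s : L),
          (∀ j, ε j = 1 ∨ ε j = -1) ∧ x ≠ 0 ∧ s ≠ 0 ∧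
          (∀ i, aeval x (map (algebraMap ℚ ℂ) (F i)) = 0) ∧
          ∀ j, y j = s * (ε j * aeval x (map (algebraMap ℚ ℂ) (φ j))) := by
  obtain ⟨N, k, R, φ, c, J, F', G', hc, hφz, -, -, hF', hG', hE⟩ :=
    Pool.Agent.H441.FT.exists_parQ F G hF hG
  have hc' : ∀ i, Pool.Agent.H441.DQ.dform 2 (c i) = parallelograms R i := hc
  obtain ⟨e, he, hφ, hmono⟩ := hE.mono
  have hsq : ∀ {Ω : Type} [Field Ω] (a : Ω), a ^ 2 = 1 → a = 1 ∨ a = -1 := by
    intro Ω _ a ha
    have h1 : (a - 1) * (a + 1) = 0 := by linear_combination ha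
    rcases mul_eq_zero.1 h1 with h | h
    · exact Or.inl (sub_eq_zero.1 h)
    · exact Or.inr (eq_neg_of_add_eq_zero_left h)
  refine ⟨N, k, R, J, e, φ, he, hφ, hφz, hmono, fun Ω _ τ x hx => ⟨?_, ?_⟩, ?_, ?_⟩
  · have h1 := hE.pts Ω τ x hx
    simp only [hF', hc'] at h1
    exact h1
  · have h1 := hE.onG Ω τ x hx
    simp only [hG'] at h1
    exact h1.symm
  · intro f hf hf0 hfX hnc
    obtain ⟨ζ, x, hζ, hxd, hx0, hxF, hfx⟩ := hE.curves (algebraMap ℚ ℂ) f hf hf0
      (fun z i => by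
        rw [hc']
        exact hfX z i) hnc
    exact ⟨ζ, x, fun j => hsq _ (hζ j), hxd, hx0, fun z i => (hF' ℂ _ _ _).1 (hxF z i), hfx⟩
  · intro L _ _ w y _ hy
    by_cases hg : GeneralType ℂ L w
    · exact Or.inl hg
    · right
      obtain ⟨ζ, x, s, hζ, hx, hs, hxF, hyx⟩ := hE.sub ℂ (algebraMap ℚ ℂ) L w y hy.ne hy.gen hy.dim
        hg (fun i => by
          have h1 := hy.mem i
          unfold Pool.Agent.W602.GT.val at h1
          rw [aeval_def, eval₂_map] at h1
          rw [hc']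
          exact h1)
      refine ⟨fun j => algebraMap ℂ L (ζ j), x, s, fun j => hsq _ ?_, hx, hs, fun i => ?_,
        fun j => ?_⟩
      · rw [← map_pow, hζ, map_one]
      · rw [aeval_def, eval₂_map]
        exact (hF' L _ x i).1 (hxF i)
      · rw [aeval_def, eval₂_map]
        exact hyx j

end proof

theorem result :
    -- Theorem 1
    (∀ (n : ℕ) (ι γ : Type) [Finite ι] [Finite γ]
      (F : ι → MvPolynomial (Fin (n + 1)) ℚ) (G : γ → MvPolynomial (Fin (n + 1)) ℚ),
      (∀ i, ∃ e, (F i).IsHomogeneous e) → (∀ i, ∃ e, (G i).IsHomogeneous e) →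
      ∃ (N k : ℕ) (R : Fin k → Fin 4 → Fin (N + 1)) (J : Set (Fin (N + 1))) (e : ℕ)
        (φ : Fin (N + 1) → MvPolynomial (Fin (n + 1)) ℚ), 1 ≤ e ∧ (∀ j, (φ j).IsHomogeneous e) ∧
        (∀ j s, ∃ z : ℤ, coeff s (φ j) = (z : ℚ)) ∧
        (∀ α : Fin (n + 1) → ℕ, ∑ i, α i = e → ∃ j, φ j = ∏ i, X i ^ α i) ∧
        -- `X = φ⁻¹(Y)` and `X ∩ Z = X ∩ φ⁻¹({y_j = 0, j ∈ J})`
        (∀ (Ω : Type) [Field Ω] (τ : ℚ →+* Ω) (x : Fin (n + 1) → Ω), x ≠ 0 →
          ((∀ i, eval₂ τ x (F i) = 0) ↔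
            ∀ i, eval₂ τ (fun j => eval₂ τ x (φ j)) (parallelograms R i) = 0) ∧
          ((∀ l, eval₂ τ x (G l) = 0) ↔ ∀ j ∈ J, eval₂ τ x (φ j) = 0)) ∧
        -- entire curves in `Y`
        (∀ f : ℂ → Fin (N + 1) → ℂ, Differentiable ℂ f → (∀ z, f z ≠ 0) →
          (∀ z i, aeval (f z) (parallelograms R i) = 0) → (∃ z w, ∀ c : ℂ, f w ≠ c • f z) →
          ∃ (ε : Fin (N + 1) → ℂ) (x : ℂ → Fin (n + 1) → ℂ), (∀ j, ε j = 1 ∨ ε j = -1) ∧
            Differentiable ℂ x ∧ (∀ z, x z ≠ 0) ∧ (∀ z i, aeval (x z) (F i) = 0) ∧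
            ∀ z j, f z j = ε j * aeval (x z) (φ j)) ∧
        -- closed subvarieties of `Y`
        ∀ (L : Type) [Field L] [Algebra ℂ L] (w : ℕ) (y : Fin (N + 1) → L), 1 ≤ w →
          SubVar (fun i => map (algebraMap ℚ ℂ) (parallelograms R i)) L w y →
          GeneralType ℂ L w ∨ ∃ (ε : Fin (N + 1) → L) (x : Fin (n + 1) → L) (s : L),
            (∀ j, ε j = 1 ∨ ε j = -1) ∧ x ≠ 0 ∧ s ≠ 0 ∧
            (∀ i, aeval x (map (algebraMap ℚ ℂ) (F i)) = 0) ∧
            ∀ j, y j = s * (ε j * aeval x (map (algebraMap ℚ ℂ) (φ j)))) ∧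
    -- Theorem 2
    ((∀ (K : Type) [Field K] [NumberField K] (n : ℕ) (ι : Type) [Finite ι]
        (F : ι → MvPolynomial (Fin (n + 1)) K), (∀ i, ∃ e, (F i).IsHomogeneous e) →
        (∀ σ : K →+* ℂ, Hyperbolic σ F) → FinitePoints F) ↔
      ∀ (N k : ℕ) (R : Fin k → Fin 4 → Fin (N + 1)),
        Hyperbolic (algebraMap ℚ ℂ) (parallelograms R) → FinitePoints (parallelograms R)) ∧
    -- Theorem 3
    ((∀ (K : Type) [Field K] [NumberField K] (n : ℕ) (ι γ : Type) [Finite ι] [Finite γ]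
        (F : ι → MvPolynomial (Fin (n + 1)) K) (G : γ → MvPolynomial (Fin (n + 1)) K),
        (∀ i, ∃ e, (F i).IsHomogeneous e) → (∀ i, ∃ e, (G i).IsHomogeneous e) →
        ((∀ σ : K →+* ℂ, CurvesIn σ F G) ↔ PointsIn F G)) ↔
      ∀ (N k : ℕ) (R : Fin k → Fin 4 → Fin (N + 1)) (J : Set (Fin (N + 1))),
        CurvesIn (algebraMap ℚ ℂ) (parallelograms R) (coords J) ↔
          PointsIn (parallelograms R) (coords J)) := by
  have hpar : ∀ {N k : ℕ} (R : Fin k → Fin 4 → Fin (N + 1)) (i : Fin k),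
      (parallelograms R i).IsHomogeneous 2 := by
    intro N k R i
    have h1 := fun j : Fin (N + 1) => (isHomogeneous_X ℚ j).pow 2
    have h2 := ((isHomogeneous_C (Fin (N + 1)) (2 : ℚ)).mul ((h1 (R i 2)).add (h1 (R i 3))))
    exact ((h1 (R i 0)).add (h1 (R i 1))).sub h2
  refine ⟨fun n ι γ _ _ F G hF hG => part_one F G hF hG, ⟨?_, ?_⟩, ⟨?_, ?_⟩⟩
  · intro h N k R hyp
    refine h ℚ N (Fin k) (parallelograms R) (fun i => ⟨2, hpar R i⟩) fun σ => ?_
    have : σ = algebraMap ℚ ℂ := Subsingleton.elim _ _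
    rw [this]
    exact hyp
  · intro h K _ _ n ι _ F hF hyp
    rw [fin_iff]
    exact Pool.Agent.H441.FT.hyperbolicK (fun N k R h1 => fin_iff.1 (h N k R (hyp_iff.2 h1))) F hF
      fun σ => hyp_iff.1 (hyp σ)
  · intro h N k R J
    have h1 := h ℚ N (Fin k) J (parallelograms R) (coords J) (fun i => ⟨2, hpar R i⟩)
      (fun j => ⟨1, isHomogeneous_X _ _⟩)
    rw [← h1]
    constructor
    · intro h2 σ
      have : σ = algebraMap ℚ ℂ := Subsingleton.elim _ _
      rw [this]
      exact h2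
    · exact fun h2 => h2 _
  · intro h K _ _ n ι γ _ _ F G hF hG
    exact ⟨fun h1 => Pool.Agent.H441.FT.implicationK (fun N k R J => (h N k R J).1) F G hF hG h1,
      fun h1 => Pool.Agent.H441.FT.converseK (fun N k R J => h N k R J) F G hF hG h1⟩

end Pool.Agent.Results.MP_f82ddf_nt.ParallelogramsSuffice
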