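import Pool.Agent.H911.KR.Lang

/-!
# Lang's conjecture on hyperbolicity and rational points for projective manifolds of dimension `m`
# follows from its relative form for hypersurfaces of dimension `m + 1` over the same field

Q1 (Lang): for a projective manifold `X` over a number field `K` and an embedding `σ` of `K` in `ℂ`, `X_σ` is
hyperbolic if and only if `X(L)` is finite for all finite extensions `L` of `K`. The relative form (with
exceptional sets) of Q1 for a closed subset `X` of a projective space over `K`: for every closed subset `Z`
over `K` all nonconstant entire curves in `X_σ` lie in `Z_σ` if and only if `(X ∖ Z)(L)` is finite for all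
finite extensions `L` of `K`. For `Z = ∅` it is the equivalence of Q1.

Let `0 ≤ k ≤ m` and `N = 2 m + 1 - k`. We consider hypersurfaces `Y` over `K` of dimension `N - 1 = 2 m - k` in
`P^N` whose singular locus is of dimension less than `k`. For `k = 0` these are the smooth hypersurfaces
of dimension `2 m`; for `k = m - 1` the hypersurfaces of dimension `m + 1` whose singular locus is of
dimension at most `m - 2` (for `m = 2`: threefolds in `P^4` with isolated singularities).

(0) Models. Every irreducible closed subset `X` of dimension `w ≤ m` of a projective space over a field `K` of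
characteristic zero (with any singularities) has a linear projection over `K` (the linear forms
`A_0, …, A_N` have no common zeros on `X`, so it is a finite morphism, birational onto its image `X'` in
`P^N`) such that for all large `D`, with forms `Q_t` over `K` of the same degree `e`, the hypersurface
`Y : ∑ t, Q_t(y) (y_0 + t y_1 + ⋯ + t^N y_N)^D = 0` contains `X'`, its singular locus is of dimension less
than `k` and contained in `X'`, and for all embeddings `σ` of `K` in `ℂ` all nonconstant entire curves in
`Y_σ` and all closed subvarieties of `Y_σ` of positive dimension which are not of general type lie in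
`X'_σ`.

For every number field `K` and every embedding `σ`, and every choice of one exponent `δ(e) ≥ D₁(e)` for each
`e` we have the implications (1) ⟹ (2) ⟹ (3) ⟹ (4) between the following statements.

(1) The relative form of Q1 for all projective varieties over `K` of dimension at most `2 m - k`.
(2) The relative form of Q1 for all hypersurfaces in `P^N` over `K` with a singular locus of dimension
less than `k`.
(3) The relative form of Q1 for the hypersurfaces
`∑ t, Q_t(y) (y_0 + t y_1 + ⋯ + t^N y_N)^D = 0` in `P^N` with a singular locus of dimension less than `k`, with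
`N (2 N + 1)` forms `Q_t` over `K` of the same degree `e` and `D = δ(e)`: for each degree `e` only one
linear system of hypersurfaces, of degree `e + δ(e)`.
(4) The relative form of Q1 for all projective varieties over `K` of dimension at most `m` (with any
singularities); in particular Q1 for all projective manifolds over `K` of dimension at most `m`.

So for all `m` together the four statements are equivalent, for `k = m - 1` with a loss of one dimension
only: Q1 for all surfaces over `K` follows from the relative form for threefolds in `P^4` over `K` with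
isolated singularities (and also from the relative form for smooth hypersurfaces in `P^5`).

Proof. Let `G` be a form over `K` which vanishes on all nonconstant entire curves in `X_σ`, and suppose that
for some finite extension `L` infinitely many points of `X(L)` are outside of `G = 0`. The forms over `K` off
which there are only finitely many points of `X` over every finite extension define a closed subset; it
has a component `W` over `K` (an irreducible closed set with generic point `y`) with `G(y) ≠ 0`, and there
is no form which does not vanish at `y` and off which there are only finitely many points of `W` over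
every finite extension. The variety `W` has a model `W'` in a hypersurface `Y` as in (0). All nonconstant
entire curves in `Y_σ` lie in `W'_σ`; those outside of a proper closed subset can be lifted to the finite
birational cover `W_σ`, so all of them lie in a proper closed subset of `W'_σ`. By (3) there is a form off
which there are only finitely many points of `Y` over every finite extension and which does not vanish on
`W'`, and so there is one for `W`, a contradiction. The other direction is proved in the same way. The
Jacobian criterion for the singular locus of `Y` and the treatment of the entire curves in `Y_σ` (with the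
methods of the library modules `N254.SQ`) are in `Pool/Agent/H911/KD`, the assembly over `K` is in
`Pool/Agent/H911/KR`.
-/

set_option autoImplicit false

namespace Pool.Agent.Results.MP_f82ddf_nt.SmallSingularLocus

open MvPolynomial
open Pool.Agent.N254.SQ (powerFormOver projPoints ProjectiveBLV)
open Pool.Agent.W602.GT (SubVar GeneralType coords)
open Pool.Agent.H911.EM (Hyperbolic Dim Forms)

/-- The relative form of Q1 for the closed subset `X` of `P^n` over `K` given by the forms `F i`: for every
closed subset `Z` (given by any family of forms `G k`) all nonconstant entire curves in `X_σ` lie in `Z_σ` if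
and only if `(X ∖ Z)(L)` is finite for all finite extensions `L` of `K`. -/
def RelativeLang {K : Type} [Field K] {ι : Type} {n : ℕ} (σ : K →+* ℂ)
    (F : ι → MvPolynomial (Fin (n + 1)) K) : Prop :=
  ∀ (κ : Type) (G : κ → MvPolynomial (Fin (n + 1)) K), (∀ k, ∃ e, (G k).IsHomogeneous e) →
    ProjectiveBLV σ F G

/-- Q1 for `X`: `X_σ` is hyperbolic if and only if `X(L)` is finite for all finite extensions `L` of `K` -/
def Lang {K : Type} [Field K] {ι : Type} {n : ℕ} (σ : K →+* ℂ)
    (F : ι → MvPolynomial (Fin (n + 1)) K) : Prop :=
  Hyperbolic σ F ↔ ∀ (L : Type) [Field L] [NumberField L] [Algebra K L], (projPoints F L).Finite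

/-- The singular locus of the hypersurface `A = 0` over `K` is of dimension less than `k`: some `k`
linear forms over `K` have no common zero on it (over any extension field). For `k = 0` the hypersurface
is smooth. -/
def SmallSing {K : Type} [Field K] {N : ℕ} (k : ℕ) (A : MvPolynomial (Fin (N + 1)) K) : Prop :=
  ∃ l : Fin k → Fin (N + 1) → K, ∀ (Ω : Type) [Field Ω] (τ : K →+* Ω) (x : Fin (N + 1) → Ω),
    x ≠ 0 → (∀ i, ∑ j, τ (l i j) * x j = 0) → ∃ j, eval₂ τ x (pderiv j A) ≠ 0

/-- the forms over `K` which vanish at the point `z`: the equations of the closed set `X'` with generic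
point `z` -/
def Equations (K : Type) [Field K] {N : ℕ} {L : Type} [Field L] [Algebra K L]
    (z : Fin (N + 1) → L) : Set (MvPolynomial (Fin (N + 1)) K) :=
  {p | (∃ e, p.IsHomogeneous e) ∧ aeval z p = 0}

/-- the singular locus of the hypersurface `A = 0` over `K` is of dimension less than `k`, the
hypersurface contains the irreducible closed set `X'` with generic point `z`, its singular points are in
`X'`, and for all embeddings of `K` in `ℂ` its nonconstant entire curves are in `X'` and its closed
subvarieties of positive dimension are of general type or lie in `X'` -/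
structure HyperbolicOutside {K : Type} [Field K] {N : ℕ} (k : ℕ) (A : MvPolynomial (Fin (N + 1)) K)
    {L : Type} [Field L] [Algebra K L] (z : Fin (N + 1) → L) : Prop where
  sing : SmallSing k A
  contains : ∀ (Ω : Type) [Field Ω] [Algebra K Ω] (x : Fin (N + 1) → Ω),
    (∀ p ∈ Equations K z, aeval x p = 0) → aeval x A = 0
  smooth : ∀ (Ω : Type) [Field Ω] [Algebra K Ω] (x : Fin (N + 1) → Ω), x ≠ 0 →
    (∀ j, aeval x (pderiv j A) = 0) → ∀ p ∈ Equations K z, aeval x p = 0
  curves : ∀ (σ : K →+* ℂ) (f : ℂ → Fin (N + 1) → ℂ), Differentiable ℂ f → (∀ w, f w ≠ 0) →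
    (∀ w, eval₂ σ (f w) A = 0) →
    (∀ a b, ∃ c : ℂ, f b = c • f a) ∨ ∀ w, ∀ p ∈ Equations K z, eval₂ σ (f w) p = 0
  subvarieties : ∀ (σ : K →+* ℂ) (L' : Type) [Field L'] [Algebra ℂ L'] (w : ℕ)
    (y : Fin (N + 1) → L'), 1 ≤ w → SubVar (fun _ : Unit => map σ A) L' w y →
      GeneralType ℂ L' w ∨ ∀ p ∈ Equations K z, aeval y (map σ p) = 0

/-- the relative form for the empty set -/
theorem lang_of {K : Type} [Field K] {ι : Type} {n : ℕ} {σ : K →+* ℂ}
    {F : ι → MvPolynomial (Fin (n + 1)) K} (h : RelativeLang σ F) : Lang σ F := by
  have h1 := h Unit (fun _ => 1) fun _ => ⟨0, isHomogeneous_one _ _⟩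
  unfold ProjectiveBLV at h1
  have h2 : (∀ f : ℂ → Fin (n + 1) → ℂ, Differentiable ℂ f → (∀ z, f z ≠ 0) →
    (∀ z i, eval₂ σ (f z) (F i) = 0) → (∃ z w, ∀ c : ℂ, f w ≠ c • f z) →
    ∀ z, ∀ _ : Unit, eval₂ σ (f z) (1 : MvPolynomial (Fin (n + 1)) K) = 0) ↔ Hyperbolic σ F := by
    constructor
    · intro h3 f hf hf0 hfF z w
      by_contra hcon
      push Not at hcon
      have h4 := h3 f hf hf0 hfF ⟨z, w, hcon⟩ z ()
      rw [← C_1, eval₂_C, map_one] at h4
      exact one_ne_zero h4
    · rintro h3 f hf hf0 hfF ⟨z, w, hzw⟩
      obtain ⟨c, hc⟩ := h3 f hf hf0 hfF z w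
      exact absurd hc (hzw c)
  rw [h2] at h1
  unfold Lang
  rw [h1]
  refine forall_congr' fun L => forall_congr' fun _ => forall_congr' fun _ =>
    forall_congr' fun _ => ?_
  have h3 : projPoints (fun _ : Unit => (1 : MvPolynomial (Fin (n + 1)) K)) L = ∅ := by
    rw [Set.eq_empty_iff_forall_notMem]
    intro P hP
    have h4 := hP ()
    rw [map_one] at h4
    exact one_ne_zero h4
  rw [h3, Set.sdiff_empty]

/-- **Lang's conjecture for projective manifolds of dimension at most `m` follows from its relative form
for hypersurfaces of dimension `2 m - k` with a singular locus of dimension less than `k`.** -/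
theorem result (m k N : ℕ) (hk : k ≤ m) (hN : N + k = 2 * m + 1) : ∃ D₁ : ℕ → ℕ,
    -- (0) models in hypersurfaces which are hyperbolic outside of them
    (∀ (K : Type) [Field K] [CharZero K] (n : ℕ) (L : Type) [Field L] [Algebra K L] (w : ℕ)
      (y : Fin (n + 1) → L), w ≤ m →
      SubVar (fun p : (∅ : Set (MvPolynomial (Fin (n + 1)) K)) =>
        (p : MvPolynomial (Fin (n + 1)) K)) L w y →
      ∃ (e : ℕ) (A : Fin (N + 1) → MvPolynomial (Fin (n + 1)) K), 1 ≤ e ∧
        (∀ i, (A i).IsHomogeneous 1) ∧
        (∀ (Ω : Type) [Field Ω] [Algebra K Ω] (x : Fin (n + 1) → Ω), x ≠ 0 →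
          (∀ p ∈ Equations K y, aeval x p = 0) → ∃ i, aeval x (A i) ≠ 0) ∧
        coords K (fun i => aeval y (A i)) = ⊤ ∧
        ∀ D, D₁ e ≤ D → ∃ Q : Fin (N * (2 * N + 1)) → MvPolynomial (Fin (N + 1)) K,
          (∀ t, (Q t).IsHomogeneous e) ∧
          HyperbolicOutside k (powerFormOver D Q) fun i => aeval y (A i)) ∧
    ∀ (K : Type) [Field K] [NumberField K] (σ : K →+* ℂ),
      -- (1) implies (2)
      ((∀ (n : ℕ) (ι : Type) (F : ι → MvPolynomial (Fin (n + 1)) K), Forms F →
          Dim F (N - 1) → RelativeLang σ F) →
        ∀ A : MvPolynomial (Fin (N + 1)) K, (∃ d, A.IsHomogeneous d) → SmallSing k A →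
          RelativeLang σ (fun _ : Unit => A)) ∧
      ∀ δ : ℕ → ℕ, (∀ e, D₁ e ≤ δ e) →
        -- (2) implies (3)
        ((∀ A : MvPolynomial (Fin (N + 1)) K, (∃ d, A.IsHomogeneous d) → SmallSing k A →
            RelativeLang σ (fun _ : Unit => A)) →
          ∀ (e : ℕ) (Q : Fin (N * (2 * N + 1)) → MvPolynomial (Fin (N + 1)) K),
            (∀ t, (Q t).IsHomogeneous e) → SmallSing k (powerFormOver (δ e) Q) →
            RelativeLang σ (fun _ : Unit => powerFormOver (δ e) Q)) ∧
        -- (3) implies (4)
        ((∀ (e : ℕ) (Q : Fin (N * (2 * N + 1)) → MvPolynomial (Fin (N + 1)) K),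
            (∀ t, (Q t).IsHomogeneous e) → SmallSing k (powerFormOver (δ e) Q) →
            RelativeLang σ (fun _ : Unit => powerFormOver (δ e) Q)) →
          ∀ (n : ℕ) (ι : Type) (F : ι → MvPolynomial (Fin (n + 1)) K), Forms F → Dim F m →
            RelativeLang σ F ∧ Lang σ F) := by
  obtain ⟨D₁, H⟩ := Pool.Agent.H911.KR.exists_bounds N k (by omega)
  refine ⟨D₁, ?_, fun K _ _ σ => ⟨?_, fun δ hδ => ⟨?_, ?_⟩⟩⟩
  · intro K _ _ n L _ _ w y hwm hy
    have hgen : Pool.Agent.H911.KR.Gen K L w y := ⟨hy.ne, hy.gen, hy.dim⟩
    obtain ⟨e, z, A, R, G, he, hz, hP, hQ⟩ := Pool.Agent.H911.KR.exists_models H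
      (show m + 1 ≤ N by omega) (by omega) hwm hgen
    refine ⟨e, A, he, hP.homA, fun Ω _ _ x hx hxE => hP.reg Ω x hx hxE, ?_, fun D hD => ?_⟩
    · rw [hP.z_eq]
      exact hz.gen
    · obtain ⟨Q, hQ1, hQ2⟩ := hQ D hD
      refine ⟨Q, hQ1, ?_⟩
      rw [hP.z_eq]
      exact ⟨hQ2.sing, hQ2.van, hQ2.out, hQ2.curves, hQ2.sub⟩
  · intro h A hA hsm
    exact h _ Unit _ (fun _ => hA) (Pool.Agent.H911.KR.dim_hyp hA
      (Pool.Agent.H911.KR.small_ne (show k ≤ N by omega) hsm))
  · intro h e Q hQ hsm
    exact h _ ⟨_, Pool.Agent.H911.EM.power_hom hQ⟩ hsm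
  · intro h n ι F hF hd
    have hE : ∀ e, ∃ D ∈ ({δ e} : Set ℕ), D₁ e ≤ D := fun e => ⟨δ e, rfl, hδ e⟩
    have h1 : RelativeLang σ F := fun κ G hG => Pool.Agent.H911.KR.relative_iff
      (show m + 1 ≤ N by omega) (by omega) H hE σ (fun e D Q hDE _ hQ hsm G hG => by
        obtain rfl : D = δ e := hDE
        exact h e Q hQ hsm Unit _ fun _ => hG) hF (Pool.Agent.H911.KR.dim_le_of hF hd) hG
    exact ⟨h1, lang_of h1⟩

end Pool.Agent.Results.MP_f82ddf_nt.SmallSingularLocus
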