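import Pool.Agent.H912.AE.Tr

/-!
# Twists of the pull-backs of a projective variety without points over infinite fields

For `f ≥ 1` let `ℚ[f]` be the infinite field of all algebraic numbers `α` with `σ^f(α) = α` for all
automorphisms `σ` of the algebraic closure of `ℚ`.  It is the largest Galois extension of `ℚ` whose
group has exponent `f`; it contains all Galois extensions, finite or infinite, whose group has
exponent dividing `f` (so number fields of unbounded degree), and if `f` is divisible by `1, ..., d`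
it contains **all** number fields of degree at most `d`.

For a closed set `X ⊂ ℙ^n` over `ℚ`, given by an arbitrary set `S` of forms, and integers
`c_0, ..., c_n` let `X_{m,c} = {x ∈ ℙ^n : (c_0 x_0^m : ... : c_n x_n^m) ∈ X}`, and let `X^(f)` be the
Zariski closure of the set of the coordinatewise products of `f` points of `X`.  We prove: if `X^(f)`
does not contain one of the `n + 1` coordinate points, then for `100%` of all `m` and `100%` of all `c`
the variety `X_{m,c}` has no point over the infinite field `ℚ[f]`; so it has no point over all finite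
extensions `L ⊂ ℚ[f]` of `ℚ` at the same time.

The assumption on `X^(f)` is satisfied for varieties of small dimension `k < n / f` in general
position.  For instance, let `X` be the linear space of dimension `k` of the sequences
`(P(0), ..., P(n))`, where `P` is a polynomial of degree at most `k`. If `k f < n`, then for `100%` of
all `m` and `100%` of all `c` there is no solution `x ≠ 0` in `ℚ[f]` such that the numbers
`c_0 x_0^m, ..., c_n x_n^m` are the values at `0, ..., n` of a polynomial of degree at most `k` (for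
`k = 1`: are in arithmetic progression). The varieties `X_{m,c}` are smooth complete intersections of
dimension `k`, of general type for large `m`, if all `c_i` are different from zero.
-/

set_option autoImplicit false

open Filter Topology

namespace Pool.Agent.Results.MP_f82ddf_nt.TwistsOverInfiniteFields

/-- The field `K[f]`: all `α` in the algebraic closure of `K` which are fixed by the `f`-th powers of all
automorphisms over `K`. -/
def expClosure (K : Type) [Field K] (f : ℕ) : IntermediateField K (AlgebraicClosure K) where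
  carrier := {α | ∀ σ : AlgebraicClosure K ≃ₐ[K] AlgebraicClosure K, (σ ^ f) α = α}
  mul_mem' {a b} ha hb σ := by rw [map_mul, ha σ, hb σ]
  add_mem' {a b} ha hb σ := by rw [map_add, ha σ, hb σ]
  algebraMap_mem' a σ := AlgEquiv.commutes _ a
  inv_mem' a ha σ := by rw [map_inv₀, ha σ]

/-- `x` is a vector of homogeneous coordinates of a point over `L` of
`X_{m,c} = {x : (c_0 x_0^m : ... : c_n x_n^m) ∈ X}`, where `X ⊂ ℙ^n` is the set of common zeros of
the forms in `S`. -/
def IsPt {L : Type} [Field L] [Algebra ℚ L] {n : ℕ} (S : Set (MvPolynomial (Fin (n + 1)) ℚ))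
    (m : ℕ) (c : Fin (n + 1) → ℤ) (x : Fin (n + 1) → L) : Prop :=
  x ≠ 0 ∧ ∀ F ∈ S, MvPolynomial.eval₂ (algebraMap ℚ L) (fun i => (c i : L) * x i ^ m) F = 0

/-- `X_{m,c}` has a point over the infinite field `ℚ[f]`. -/
def HasPoint {n : ℕ} (S : Set (MvPolynomial (Fin (n + 1)) ℚ)) (f m : ℕ)
    (c : Fin (n + 1) → ℤ) : Prop :=
  ∃ x : Fin (n + 1) → expClosure ℚ f, IsPt S m c x

/-- There are elements `x_0, ..., x_n` of `ℚ[f]`, not all zero, such that `c_0 x_0^m, ..., c_n x_n^m`
are the values at `0, ..., n` of a polynomial of degree at most `k`. -/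
def HasProgression {n : ℕ} (k f m : ℕ) (c : Fin (n + 1) → ℤ) : Prop :=
  ∃ x : Fin (n + 1) → expClosure ℚ f, x ≠ 0 ∧
    ∃ P : Polynomial (expClosure ℚ f), P.natDegree ≤ k ∧
      ∀ i, (c i : expClosure ℚ f) * x i ^ m = P.eval ((i : ℕ) : expClosure ℚ f)

/-- For all fields `K`, the field `K[f]` contains all normal extensions `E` of `K` with `σ^f = 1` for
all automorphisms `σ` of `E` over `K`. -/
def ContainsExponent : Prop :=
  ∀ (K : Type) [Field K] (f : ℕ) (E : IntermediateField K (AlgebraicClosure K)), Normal K E →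
    (∀ σ : E ≃ₐ[K] E, σ ^ f = 1) → E ≤ expClosure K f

/-- For all fields `K`, if `g` is divisible by `1, ..., d`, then `K[f g]` contains the zeros of the
polynomials of degree at most `d` with coefficients in `K[f]`. -/
def ContainsDegree : Prop :=
  ∀ (K : Type) [Field K] (f g d : ℕ), (∀ j, 1 ≤ j → j ≤ d → j ∣ g) →
    ∀ (α : AlgebraicClosure K) (P : Polynomial (expClosure K f)), P ≠ 0 → P.natDegree ≤ d →
      P.eval₂ (algebraMap (expClosure K f) (AlgebraicClosure K)) α = 0 →
        α ∈ expClosure K (f * g)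

/-- The forms with coefficients in `ℚ` which vanish at the coordinatewise product of any `e` zeros
of `S`, over any field containing `ℚ`: the equations of the Hadamard power `X^(e)`, the Zariski
closure of the set of coordinatewise products of `e` points of `X`. -/
def Had {n : ℕ} (S : Set (MvPolynomial (Fin (n + 1)) ℚ)) (e : ℕ) :
    Set (MvPolynomial (Fin (n + 1)) ℚ) :=
  {G | (∃ d, G.IsHomogeneous d) ∧ ∀ (L : Type) [Field L] (φ : ℚ →+* L)
    (z : Fin e → Fin (n + 1) → L), (∀ j, ∀ F ∈ S, MvPolynomial.eval₂ φ (z j) F = 0) →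
      MvPolynomial.eval₂ φ (fun i => ∏ j, z j i) G = 0}

/-- The `i`-th coordinate point `(0 : ... : 1 : ... : 0)` is a zero of the forms in `S`. -/
def CoordPt {n : ℕ} (S : Set (MvPolynomial (Fin (n + 1)) ℚ)) (i : Fin (n + 1)) : Prop :=
  ∀ F ∈ S, MvPolynomial.eval (Pi.single i 1) F = 0

open Classical in
/-- The number of the integral vectors `c` in the box `∏ [a_i, a_i + H_i)` with the property `P`. -/
noncomputable def count {N : ℕ} (P : (Fin N → ℤ) → Prop) (a : Fin N → ℤ) (H : Fin N → ℕ) : ℕ :=
  ((Fintype.piFinset fun i => Finset.Ico (a i) (a i + H i)).filter P).card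

/-- The set `A` of positive integers has natural density `δ`. -/
def HasDensity (A : Set ℕ) (δ : ℝ) : Prop :=
  Tendsto (fun N : ℕ => ((A ∩ Set.Icc 1 N).ncard : ℝ) / N) atTop (𝓝 δ)

/-- The property `P m c` holds for zero percent of all `m` and `c`: for every `ε > 0` there are `H₀`
and `N₀` such that for all `M ≥ N₀` the following holds for all `m < M` but at most `ε M`: in every
box with sides at least `H₀`, the proportion of the vectors `c` with the property `P m c` is at most
`ε`.  In particular, for every `ε > 0`, it is at most `ε` in all sufficiently large boxes, for all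
`m` in a set of natural density one. -/
def IsRare {N : ℕ} (P : ℕ → (Fin N → ℤ) → Prop) : Prop :=
  (∀ ε : ℝ, 0 < ε → ∃ H₀ N₀ : ℕ, ∀ M ≥ N₀,
    (({m | m < M ∧ ¬ ∀ (a : Fin N → ℤ) (H : Fin N → ℕ), (∀ i, H₀ ≤ H i) →
      (count (P m) a H : ℝ) ≤ ε * ∏ i, (H i : ℝ)}.ncard : ℝ)) ≤ ε * M) ∧
  (∀ ε : ℝ, 0 < ε → HasDensity {m | ∃ H₀ : ℕ, ∀ (a : Fin N → ℤ)
    (H : Fin N → ℕ), (∀ i, H₀ ≤ H i) → (count (P m) a H : ℝ) ≤ ε * ∏ i, (H i : ℝ)} 1)

/-- **Main theorem.** Let `X ⊂ ℙ^n` be the set of zeros of an arbitrary set `S` of forms with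
rational coefficients, and `X_{m,c} = {x : (c_0 x_0^m : ... : c_n x_n^m) ∈ X}`.

1. Let `f ≥ 1`, and suppose that `X^(f)` does not contain a coordinate point. Then `X_{m,c}` has a
   point over the infinite field `ℚ[f]` only for zero percent of all `m` and `c`.
2. Let `f ≥ 1` and `k f < n`. Then only for zero percent of all `m` and `c` there are elements
   `x_0, ..., x_n` of `ℚ[f]`, not all zero, such that `c_0 x_0^m, ..., c_n x_n^m` are the values at
   `0, ..., n` of a polynomial of degree at most `k`.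
3. For all fields `K` (in particular `K = ℚ`), `K[f]` contains all normal extensions `E` of `K` with
   `σ^f = 1` for all automorphisms `σ` of `E` over `K`.
4. For all fields `K`, if `g` is divisible by `1, ..., d`, then the zeros of polynomials of degree at
   most `d` with coefficients in `K[f]` are in `K[f g]`. In particular (`K = ℚ`, `f = 1`) the field
   `ℚ[g]` contains all algebraic numbers of degree at most `d`. -/
theorem result :
    (∀ {n : ℕ} (S : Set (MvPolynomial (Fin (n + 1)) ℚ)), (∀ F ∈ S, ∃ d, F.IsHomogeneous d) →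
      ∀ f : ℕ, 1 ≤ f → (∀ i, ¬ CoordPt (Had S f) i) → IsRare (HasPoint S f)) ∧
    (∀ n k f : ℕ, 1 ≤ f → k * f < n → IsRare (HasProgression (n := n) k f)) ∧
    ContainsExponent ∧ ContainsDegree := by
  classical
  have main : ∀ {n : ℕ} (S : Set (MvPolynomial (Fin (n + 1)) ℚ)),
      (∀ F ∈ S, ∃ d, F.IsHomogeneous d) → ∀ f : ℕ, 1 ≤ f → (∀ i, ¬ CoordPt (Had S f) i) →
        IsRare (HasPoint S f) := by
    intro n S hS f hf hco
    -- choose the forms
    have hex : ∀ i, ∃ G : MvPolynomial (Fin (n + 1)) ℚ, G ∈ Had S f ∧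
        MvPolynomial.eval (Pi.single i 1) G ≠ 0 := by
      intro i
      have h1 := hco i
      unfold CoordPt at h1
      push Not at h1
      exact h1
    choose G hG hG1 using hex
    set T : Fin (n + 1) → MvPolynomial (Fin (n + 1)) ℤ :=
      fun i => Pool.Agent.H912.AE.intF (G i) with hT
    choose δ hδ using fun i => (hG i).1
    have hT0 : ∀ i, ∃ d' ≤ ∑ i, δ i, (T i).IsHomogeneous d' := by
      intro i
      exact ⟨δ i, Finset.single_le_sum (f := fun i => δ i) (fun _ _ => Nat.zero_le _)
        (Finset.mem_univ i), Pool.Agent.H912.AE.hom_intF (hδ i)⟩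
    have hT1 : ∀ i, MvPolynomial.eval (Pi.single i 1) (T i) ≠ 0 := by
      intro i h0
      refine hG1 i ?_
      have h1 := Pool.Agent.H912.AE.aeval_ringHom (Int.castRingHom ℚ)
        (Pi.single i 1 : Fin (n + 1) → ℤ) (T i)
      have h2 : (fun j => (Int.castRingHom ℚ) ((Pi.single i 1 : Fin (n + 1) → ℤ) j)) =
          (Pi.single i 1 : Fin (n + 1) → ℚ) := by
        funext j
        by_cases hj : j = i
        · subst hj
          simp
        · simp [Pi.single_eq_of_ne hj]
      have h3 : MvPolynomial.aeval (Pi.single i 1 : Fin (n + 1) → ℤ) (T i) = 0 := h0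
      rw [h3, map_zero, h2] at h1
      exact (Pool.Agent.H912.AE.zero_iff _ (G i)).1 h1.symm
    obtain ⟨D₀, hD₀⟩ := Pool.Agent.H912.AE.red_twist S hS T (f := f) (by
      intro i L _ φ z hz
      have hL : CharZero L := charZero_of_injective_ringHom φ.injective
      refine (Pool.Agent.H912.AE.zero_iff (fun i => ∏ j, z j i) (G i)).2 ?_
      have h1 := (hG i).2 L φ z hz
      rw [MvPolynomial.aeval_def, Subsingleton.elim (algebraMap ℚ L) φ]
      exact h1)
    have key := fun (ε : ℝ) (hε : 0 < ε) => Pool.Agent.H912.AE.twistsAbs (D := f) hf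
      (fun _ => T) (fun _ _ i => hT0 i) (fun _ _ i => hT1 i)
      (HasPoint S f) D₀
      (fun q _ hq m c ⟨x, hx0, hxS⟩ => hD₀ q hq m c
        ⟨fun i => (x i : AlgebraicClosure ℚ), fun i => (x i).2,
          fun h => hx0 (funext fun i => Subtype.ext (congrFun h i)), fun F hF => by
            have h1 := congrArg (algebraMap (expClosure ℚ f) (AlgebraicClosure ℚ)) (hxS F hF)
            rw [map_zero, MvPolynomial.hom_eval₂] at h1
            rw [← h1]
            congr 1⟩) hε
    refine ⟨fun ε hε => ?_, fun ε hε => ?_⟩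
    · obtain ⟨H₀, N₀, h⟩ := key ε hε
      refine ⟨H₀, N₀, fun M hM => le_trans (le_of_eq ?_) (h M hM)⟩
      rw [← Set.ncard_coe_finset]
      congr 2
      ext m
      simp only [Set.mem_ofPred_eq, Finset.coe_filter, Finset.mem_range]
      rfl
    · refine Pool.Agent.H912.AE.full_of fun ε' hε' => ?_
      obtain ⟨H₀, N₀, h⟩ := key (min ε ε') (lt_min hε hε')
      refine ⟨N₀, fun M hM => ?_⟩
      have h1 : (Finset.range M).filter (fun m => m ∉ {m | ∃ H₀ : ℕ, ∀ (a : Fin (n + 1) → ℤ)
          (H : Fin (n + 1) → ℕ), (∀ i, H₀ ≤ H i) →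
            (count (HasPoint S f m) a H : ℝ) ≤
              ε * ∏ i, (H i : ℝ)}) ⊆
          (Finset.range M).filter (fun m => ¬ ∀ (a : Fin (n + 1) → ℤ) (H : Fin (n + 1) → ℕ),
          (∀ i, H₀ ≤ H i) →
            (count (HasPoint S f m) a H : ℝ) ≤
              min ε ε' * ∏ i, (H i : ℝ)) := by
        intro m hm
        rw [Finset.mem_filter] at hm ⊢
        refine ⟨hm.1, fun h2 => hm.2 ⟨H₀, fun a H hH => (h2 a H hH).trans ?_⟩⟩
        exact mul_le_mul_of_nonneg_right (min_le_left _ _)
          (Finset.prod_nonneg fun i _ => by positivity)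
      have h2 : (((Finset.range M).filter (fun m => m ∉ {m | ∃ H₀ : ℕ,
          ∀ (a : Fin (n + 1) → ℤ) (H : Fin (n + 1) → ℕ), (∀ i, H₀ ≤ H i) →
            (count (HasPoint S f m) a H : ℝ) ≤
              ε * ∏ i, (H i : ℝ)})).card : ℝ) ≤ min ε ε' * M := by
        refine le_trans ?_ (h M hM)
        exact_mod_cast Finset.card_le_card h1
      exact h2.trans (mul_le_mul_of_nonneg_right (min_le_right _ _) (by positivity))
  have mono : ∀ {N : ℕ} (P Q : ℕ → (Fin N → ℤ) → Prop), (∀ m c, P m c → Q m c) → IsRare Q →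
      IsRare P := by
    intro N P Q hPQ hQ
    have hle : ∀ m (a : Fin N → ℤ) (H : Fin N → ℕ), count (P m) a H ≤ count (Q m) a H := by
      intro m a H
      refine Finset.card_le_card fun c hc => ?_
      rw [Finset.mem_filter] at hc ⊢
      exact ⟨hc.1, hPQ m c hc.2⟩
    refine ⟨fun ε hε => ?_, fun ε hε => ?_⟩
    · obtain ⟨H₀, N₀, h⟩ := hQ.1 ε hε
      refine ⟨H₀, N₀, fun M hM => le_trans ?_ (h M hM)⟩
      have h1 : {m | m < M ∧ ¬ ∀ (a : Fin N → ℤ) (H : Fin N → ℕ), (∀ i, H₀ ≤ H i) →
          (count (P m) a H : ℝ) ≤ ε * ∏ i, (H i : ℝ)} ⊆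
          {m | m < M ∧ ¬ ∀ (a : Fin N → ℤ) (H : Fin N → ℕ), (∀ i, H₀ ≤ H i) →
          (count (Q m) a H : ℝ) ≤ ε * ∏ i, (H i : ℝ)} := by
        rintro m ⟨h2, h3⟩
        refine ⟨h2, fun h4 => h3 fun a H hH => le_trans ?_ (h4 a H hH)⟩
        exact_mod_cast hle m a H
      have h2 : {m | m < M ∧ ¬ ∀ (a : Fin N → ℤ) (H : Fin N → ℕ), (∀ i, H₀ ≤ H i) →
          (count (Q m) a H : ℝ) ≤ ε * ∏ i, (H i : ℝ)}.Finite :=
        (Set.finite_lt_nat M).subset fun m hm => hm.1
      exact_mod_cast Set.ncard_le_ncard h1 h2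
    · refine Pool.Agent.H912.AE.density_congr (hQ.2 ε hε) Pool.Agent.H912.AE.density_univ
        fun m hm _ => ⟨fun _ => Set.mem_univ _, fun _ => ?_⟩
      obtain ⟨H₀, h⟩ := hm
      refine ⟨H₀, fun a H hH => le_trans ?_ (h a H hH)⟩
      exact_mod_cast hle m a H
  refine ⟨main, fun n k f hf hkn => ?_, fun K _ f E hE hσ => ?_,
    fun K _ f g d hg α P hP hPd hα => ?_⟩
  · refine mono _ _ ?_ (main (Pool.Agent.H912.AE.polEqs ℚ n k)
      Pool.Agent.H912.AE.polEqs_hom f hf fun i hi => ?_)
    · rintro m c ⟨x, hx0, P, hP, hx⟩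
      refine ⟨x, hx0, ?_⟩
      rintro F ⟨s, hs, rfl⟩
      rw [Pool.Agent.H912.AE.dForm_eval]
      rw [← Pool.Agent.H912.AE.dForm_poly (P := P) (r := k + 1) (by omega) s]
      exact Finset.sum_congr rfl fun j _ => by rw [hx]
    · -- the window
      set s := min (i : ℕ) (n - (k * f + 1)) with hs
      have h1 : s + (k * f + 1) < n + 1 := by omega
      have h2 := Pool.Agent.H912.AE.dForm_single (K := ℚ) h1 (i - s) (by omega)
      have h3 : (⟨s + (i - s), by omega⟩ : Fin (n + 1)) = i := Fin.ext (by simp only; omega)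
      rw [h3] at h2
      exact h2 (hi _ (Pool.Agent.H912.AE.polEqs_had h1))
  · exact Pool.Agent.H912.AE.le_expField E hσ
  · exact Pool.Agent.H912.AE.mem_expField_mul hg hP hPd hα

end Pool.Agent.Results.MP_f82ddf_nt.TwistsOverInfiniteFields
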